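import Pool.Agent.W123.RU.Gold
import Pool.Agent.W123.GS.Fin

set_option autoImplicit false

/-!
# Goldbach representations with an almost prime: constant density at all but boundedly many scales

Uniformly in the even number `N` and in the position of the first prime. Put
`S(N) = ∏_{p ∣ N, p > 2} (p - 1) / (p - 2)` and let `8 x ≤ N ≤ x ^ B`, `N` even. Consider the primes `p`
for which `N - p` has at most `r` prime factors, all larger than `N ^ (1 / r)`. At all but boundedly
many dyadic scales `D` with `log² N / S(N) ≤ D ≤ x` they have a constant density `λ S(N) / log² N` on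
`[n - D, n + D]`, up to `δ S(N) / log² N`, for all subintervals simultaneously: this holds for almost
all `n` in `(x, 2 x]` with some `λ ≥ 0`, and for a positive proportion with `c₁ ≤ λ ≤ c₂`.
-/

namespace Pool.Agent.Results.MP_629a14_nt.AllButFewScales

open Finset Filter

/-- `p` is prime and `N - p` has at most `r` prime factors (with multiplicity), all of them larger
than `N ^ (1 / r)`. -/
def AlmostGoldbach (r N p : ℕ) : Prop :=
  p.Prime ∧ (N - p).primeFactorsList.length ≤ r ∧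
    ∀ q : ℕ, q.Prime → q ∣ N - p → (N : ℝ) ^ (1 / (r : ℝ)) < (q : ℝ)

/-- the arithmetic factor of the Hardy-Littlewood prediction -/
noncomputable def S (N : ℕ) : ℝ :=
  ∏ p ∈ N.primeFactors.filter (fun p => 2 < p), ((p : ℝ) - 1) / ((p : ℝ) - 2)

open Classical in
/-- up to `δ S(N) / log² N` the primes `p` of the problem have a constant density
`lam S(N) / log² N` with `c₁ ≤ lam ≤ c₂` on `[n - D, n + D]` -/
def ConstantDensity (r N : ℕ) (c₁ c₂ δ : ℝ) (n D : ℕ) : Prop :=
  ∃ lam : ℝ, c₁ ≤ lam ∧ lam ≤ c₂ ∧ ∀ u v : ℕ, n ≤ u + D → u ≤ v → v ≤ n + D →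
    |(((Finset.Ioc u v).filter (fun p => AlmostGoldbach r N p)).card : ℝ) -
      lam * S N * ((v : ℝ) - u) / Real.log N ^ 2| ≤ δ * S N * D / Real.log N ^ 2

open Classical in
/-- the number of `j` with `log² N / S(N) ≤ 2 ^ j ≤ x` for which there is no constant density on
`[n - 2 ^ j, n + 2 ^ j]` -/
noncomputable def badScales (r N : ℕ) (c₁ c₂ δ : ℝ) (x n : ℕ) : ℕ :=
  ((Finset.range (Nat.log 2 x + 1)).filter (fun j => Real.log N ^ 2 / S N ≤ (2 : ℝ) ^ j ∧
    ¬ ConstantDensity r N c₁ c₂ δ n (2 ^ j))).card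

open Pool.Agent.W123.RP Pool.Agent.H373R2.T7 Pool.Agent.W123.RU Pool.Agent.W123.RU.Gold
  Pool.Agent.W123.GS

lemma S_eq (N : ℕ) : S N = sing N := rfl

open Classical in
lemma bad_le (r N : ℕ) (c₁ c₂ δ : ℝ) (x n : ℕ) (P : ℕ → Prop) (L : ℝ)
    (hS : 0 < sing N) (hlog : 0 < Real.log N) (hL : L = Real.log N ^ 2 / sing N)
    (hP : ∀ m, P m ↔ AlmostGoldbach r N m) :
    badScales r N c₁ c₂ δ x n ≤ ((range (Nat.log 2 x + 1)).filter
      (fun j => L ≤ (2 : ℝ) ^ j ∧ ¬ Good P c₁ c₂ δ L n j)).card := by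
  unfold badScales
  apply card_le_card
  intro j hj
  rw [mem_filter] at hj ⊢
  refine ⟨hj.1, ?_, ?_⟩
  · rw [hL]; exact hj.2.1
  · intro hg
    apply hj.2.2
    obtain ⟨lam, h1, h2, h3⟩ := hg
    refine ⟨lam, h1, h2, ?_⟩
    intro u v hu huv hv
    have h4 := h3 u v hu huv hv
    have hco : co P u v = ((Finset.Ioc u v).filter (fun p => AlmostGoldbach r N p)).card := by
      unfold co
      congr 1
      ext m
      rw [mem_filter, mem_filter, hP]
    rw [hco] at h4
    rw [S_eq]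
    have e1 : lam * sing N * ((v : ℝ) - u) / Real.log N ^ 2 = lam * ((v : ℝ) - u) / L := by
      rw [hL]; field_simp
    have e2 : δ * sing N * ((2 ^ j : ℕ) : ℝ) / Real.log N ^ 2 = δ * 2 ^ j / L := by
      rw [hL]; push_cast; field_simp
    rw [e1, e2]
    exact h4

open Classical in
/-- **All but boundedly many scales, uniformly in the even number.** -/
theorem result (B : ℕ) (hB : 2 ≤ B) :
    ∃ (r : ℕ) (c₁ c₂ κ : ℝ), 0 < c₁ ∧ 0 < c₂ ∧ 0 < κ ∧ ∀ δ η : ℝ, 0 < δ → 0 < η →
    ∃ (K : ℕ) (Λ : ℝ), ∀ᶠ x : ℕ in atTop, ∀ N : ℕ, Even N → 8 * x ≤ N → N ≤ x ^ B →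
      κ * x ≤ (((Finset.Ioc x (2 * x)).filter (fun n => badScales r N c₁ c₂ δ x n ≤ K)).card : ℝ) ∧
      (((Finset.Ioc x (2 * x)).filter (fun n => K < badScales r N 0 Λ δ x n)).card : ℝ) ≤ η * x := by
  have hB2 : (2 : ℝ) ≤ B := by exact_mod_cast hB
  obtain ⟨Cs, hCs, hsing⟩ := sing_le
  obtain ⟨D', hD'⟩ : ∃ D' : ℕ, 24 * Cs ≤ D' := exists_nat_ge _
  obtain ⟨K1, hK1, hmain⟩ := sieve_scales 2 4 3 D' 0 (by norm_num)
  obtain ⟨K2, hK2, hlow⟩ := prime_lower 1 le_rfl
  obtain ⟨c0, hc0, hPI⟩ := PI_low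
  obtain ⟨Cv, hCv, hV⟩ := V_up
  obtain ⟨r, hr⟩ : ∃ r : ℕ, r = max K1 K2 := ⟨_, rfl⟩
  have hr1 : K1 ≤ r := by rw [hr]; exact le_max_left _ _
  have hr2 : K2 ≤ r := by rw [hr]; exact le_max_right _ _
  have hr0 : 2 ≤ r := hK1.trans hr1
  have hrr : (2 : ℝ) ≤ r := by exact_mod_cast hr0
  have hrpos : (0 : ℝ) < r := by linarith
  obtain ⟨R, hR⟩ : ∃ R : ℕ, R = B * r := ⟨_, rfl⟩
  have hRr : (R : ℝ) = B * r := by rw [hR]; push_cast; ring
  have hR0 : 2 ≤ R := by rw [hR]; nlinarith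
  have hRpos : (0 : ℝ) < R := by rw [hRr]; positivity
  set cS : ℝ := c0 / (8 * 2 ^ (B * r)) with hcS
  have hcS0 : 0 < cS := by positivity
  set C3 : ℝ := 4 * Cv * R ^ 2 * B ^ 2 with hC3
  have hC30 : 0 < C3 := by positivity
  have hK1R : K1 ≤ R := by rw [hR]; nlinarith
  obtain ⟨c₁, c₂, κ, hc₁, hc₂, hκ, hmain⟩ := hmain R hK1R cS C3 hcS0 hC30
  refine ⟨R, c₁, c₂, κ, hc₁, hc₂, hκ, ?_⟩
  intro δ η hδ hη
  obtain ⟨K, lam, L0, hlam, hreg⟩ := hmain δ η hδ hη
  refine ⟨K, lam, ?_⟩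
  have hXr : Tendsto (fun X : ℕ => (X : ℝ)) atTop atTop := tendsto_natCast_atTop_atTop
  have hpow : Tendsto (fun X : ℕ => (X : ℝ) ^ (1 / (2 * R : ℝ))) atTop atTop :=
    (tendsto_rpow_atTop (by positivity)).comp hXr
  have hlogX : Tendsto (fun X : ℕ => Real.log (X : ℝ)) atTop atTop :=
    Real.tendsto_log_atTop.comp hXr
  have key : ∀ᶠ X : ℕ in atTop, ∀ N : ℕ, Even N → 8 * X ≤ N → N ≤ X ^ B →
      κ * X ≤ (((Finset.Ioc X (2 * X)).filter (fun n => badScales R N c₁ c₂ δ X n ≤ K)).card : ℝ) ∧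
      (((Finset.Ioc X (2 * X)).filter (fun n => K < badScales R N 0 lam δ X n)).card : ℝ) ≤ η * X := by
    filter_upwards [hreg, hlow r hr2 2, eventually_ge_atTop 16, hpow.eventually_ge_atTop 2,
      hlogX.eventually_ge_atTop (2 + Cs * (|L0| + 2) + 1 / cS), logpow_le 16 ((B : ℝ) ^ 16) (by positivity)] with X
      hreg hlow hX16 hX2 hXlog hlp
    intro N hE hN1 hN2
    have hX16r : (16 : ℝ) ≤ X := by exact_mod_cast hX16
    have hXpos : (0 : ℝ) < X := by linarith
    have hX1 : (1 : ℝ) ≤ X := by linarith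
    have hN1r : 8 * (X : ℝ) ≤ N := by exact_mod_cast hN1
    have hNX2 : (N : ℝ) ≤ (X : ℝ) ^ B := by exact_mod_cast hN2
    have hNpos : (0 : ℝ) < N := by linarith
    have hN0 : N ≠ 0 := by omega
    have hL0a : 0 ≤ |L0| := abs_nonneg _
    have hCsL : 0 ≤ Cs * (|L0| + 2) := by positivity
    have hcS1 : 0 < 1 / cS := by positivity
    have hlX2 : 2 ≤ Real.log X := by linarith
    have hlX : 0 < Real.log X := by linarith
    have hlN : Real.log X ≤ Real.log N := Real.log_le_log hXpos (by linarith)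
    have hlNpos : 0 < Real.log N := by linarith
    have hlN2 : Real.log N ≤ B * Real.log X := by
      calc Real.log N ≤ Real.log ((X : ℝ) ^ B) := Real.log_le_log hNpos hNX2
        _ = B * Real.log X := by rw [Real.log_pow]
    have hlN2sq : Real.log N ^ 2 ≤ B ^ 2 * Real.log X ^ 2 := by
      calc Real.log N ^ 2 ≤ (B * Real.log X) ^ 2 := pow_le_pow_left₀ hlNpos.le hlN2 2
        _ = _ := by ring
    have hS1 := one_le_sing N
    have hS0 : 0 < sing N := by linarith
    have hSle := hsing N (by omega) hE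
    set L : ℝ := Real.log N ^ 2 / sing N with hL
    have hLpos : 0 < L := by positivity
    have hLlow : Real.log N / Cs ≤ L := by
      rw [hL, div_le_div_iff₀ hCs hS0]
      nlinarith
    have hLup : L ≤ B ^ 2 * Real.log X ^ 2 := by
      rw [hL, div_le_iff₀ hS0]
      have h2 : 0 ≤ (B : ℝ) ^ 2 * Real.log X ^ 2 := by positivity
      nlinarith
    have hL0' : L0 + 2 ≤ L := by
      refine le_trans ?_ hLlow
      rw [le_div_iff₀ hCs]
      have := le_abs_self L0
      have : (L0 + 2) * Cs ≤ (|L0| + 2) * Cs := by gcongr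
      linarith
    have hL2 : 2 ≤ L := by
      refine le_trans ?_ hLlow
      rw [le_div_iff₀ hCs]
      have : 2 * Cs ≤ (|L0| + 2) * Cs := by gcongr; linarith
      linarith
    have hL8 : L ^ 8 ≤ X := by
      calc L ^ 8 ≤ (B ^ 2 * Real.log X ^ 2) ^ 8 := by gcongr
        _ = (B : ℝ) ^ 16 * Real.log X ^ 16 := by ring
        _ ≤ X := hlp
    -- levels
    obtain ⟨-, hy2, hy3, hy4⟩ := level_low R hR0 X (by omega) hX2
    have hX2' : 2 ≤ (X : ℝ) ^ (1 / (2 * r : ℝ)) := by
      refine hX2.trans (Real.rpow_le_rpow_of_exponent_le hX1 ?_)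
      rw [hRr]
      apply one_div_le_one_div_of_le (by positivity)
      have : 1 * (r : ℝ) ≤ B * r := by gcongr; linarith
      linarith
    obtain ⟨-, hz2, hz3, hz4⟩ := level_low r hr0 X (by omega) hX2'
    have hylog : 0 < Real.log ⌊(X : ℝ) ^ (1 / (R : ℝ))⌋₊ := lt_of_lt_of_le (by positivity) hy2
    have hzlog : 0 < Real.log ⌊(X : ℝ) ^ (1 / (r : ℝ))⌋₊ := lt_of_lt_of_le (by positivity) hz2
    have hXN : (X : ℝ) ^ (1 / (R : ℝ)) ≤ (N : ℝ) ^ (1 / (R : ℝ)) :=
      Real.rpow_le_rpow hXpos.le (by linarith) (by positivity)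
    have hNX : (N : ℝ) ^ (1 / (R : ℝ)) ≤ (X : ℝ) ^ (1 / (r : ℝ)) := by
      calc (N : ℝ) ^ (1 / (R : ℝ)) ≤ ((X : ℝ) ^ B) ^ (1 / (R : ℝ)) :=
            Real.rpow_le_rpow hNpos.le hNX2 (by positivity)
        _ = (X : ℝ) ^ (1 / (r : ℝ)) := by
          rw [← Real.rpow_natCast, ← Real.rpow_mul hXpos.le, hRr]
          congr 1
          field_simp
    -- upper bound of the sieve product
    have hVy : Vq (Q N) ⌊(X : ℝ) ^ (1 / (R : ℝ))⌋₊ ≤ C3 / L := by
      refine (hV _ hy4 N hN0 hE).trans ?_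
      have h1 : (Real.log X / (2 * R)) ^ 2 ≤ Real.log ⌊(X : ℝ) ^ (1 / (R : ℝ))⌋₊ ^ 2 :=
        pow_le_pow_left₀ (by positivity) hy2 2
      calc Cv / Real.log ⌊(X : ℝ) ^ (1 / (R : ℝ))⌋₊ ^ 2 * sing N ≤
          Cv / (Real.log X / (2 * R)) ^ 2 * sing N := by gcongr
        _ = 4 * Cv * R ^ 2 * sing N / Real.log X ^ 2 := by field_simp; ring
        _ ≤ (4 * Cv * R ^ 2 * B ^ 2) * sing N / Real.log N ^ 2 := by
          rw [div_le_div_iff₀ (by positivity) (by positivity)]
          calc 4 * Cv * R ^ 2 * sing N * Real.log N ^ 2 ≤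
              4 * Cv * R ^ 2 * sing N * (B ^ 2 * Real.log X ^ 2) := by gcongr
            _ = _ := by ring
        _ = C3 / L := by rw [hC3, hL]; field_simp
    -- large primes
    have hlarge : ∀ h ∈ Icc 1 ⌊L⌋₊, h ∉ (∅ : Finset ℕ) → ((pz ⌊(X : ℝ) ^ (1 / (R : ℝ))⌋₊).filter
        (fun p : ℕ => ⌊L⌋₊ < p ∧ Co N p h)).card ≤ D' * ⌊L⌋₊ := by
      intro h hh _
      rw [mem_Icc] at hh
      have hLX : L ≤ X := by
        calc L = L ^ 1 := (pow_one L).symm
          _ ≤ L ^ 8 := pow_le_pow_right₀ (by linarith) (by norm_num)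
          _ ≤ X := hL8
      have hhN : h < N := by
        have h1 : (h : ℝ) ≤ L := (Nat.cast_le.2 hh.2).trans (Nat.floor_le hLpos.le)
        have h2 : (h : ℝ) < N := by linarith
        exact_mod_cast h2
      have h1 := large N h ⌊L⌋₊ ⌊(X : ℝ) ^ (1 / (R : ℝ))⌋₊ hh.1 hh.2 hhN
      have hl2 : (1 : ℝ) / 2 ≤ Real.log 2 := by
        have := Real.log_two_gt_d9
        linarith
      have h3 : Real.log (2 * N) ≤ 2 * Real.log N := by
        calc Real.log (2 * N) ≤ Real.log ((N : ℝ) ^ 2) := Real.log_le_log (by positivity) (by nlinarith)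
          _ = 2 * Real.log N := by rw [Real.log_pow]; norm_num
      have hc0 : (0 : ℝ) ≤ (((pz ⌊(X : ℝ) ^ (1 / (R : ℝ))⌋₊).filter
        (fun p : ℕ => ⌊L⌋₊ < p ∧ Co N p h)).card : ℝ) := Nat.cast_nonneg _
      have h4 : (((pz ⌊(X : ℝ) ^ (1 / (R : ℝ))⌋₊).filter
        (fun p : ℕ => ⌊L⌋₊ < p ∧ Co N p h)).card : ℝ) ≤ 8 * Real.log N := by
        have := mul_le_mul_of_nonneg_left hl2 hc0
        linarith
      have h5 : L / 2 ≤ ⌊L⌋₊ := by
        have := Nat.lt_floor_add_one L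
        linarith
      have h6 : Real.log N ≤ Cs * L := by
        rw [div_le_iff₀ hCs] at hLlow
        linarith
      have h7 : 8 * Real.log N ≤ D' * ⌊L⌋₊ := by
        calc 8 * Real.log N ≤ 8 * (Cs * L) := by linarith
          _ = (16 * Cs) * (L / 2) := by ring
          _ ≤ (D' : ℝ) * ⌊L⌋₊ := by
            apply mul_le_mul _ h5 (by positivity) (by positivity)
            linarith
      have h8 := h4.trans h7
      exact_mod_cast h8
    -- the set
    obtain ⟨P, hP⟩ : ∃ P : ℕ → Prop, ∀ m, P m ↔ AlmostGoldbach R N m := ⟨_, fun m => Iff.rfl⟩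
    have hPQ : ∀ m, P m → m ≤ 4 * X → ⌊(X : ℝ) ^ (1 / (R : ℝ))⌋₊ < m →
        ∀ p ∈ pz ⌊(X : ℝ) ^ (1 / (R : ℝ))⌋₊, ¬ Q N p m := by
      intro m hPm hm4 hm p hp hq
      obtain ⟨h1, -, h2⟩ := (hP m).1 hPm
      have hpp := (mem_pz.1 hp).2
      rcases hq with h3 | h3
      · have h5 : p ∣ m := by exact_mod_cast h3
        have h6 := (Nat.prime_dvd_prime_iff_eq hpp h1).1 h5
        have h7 := (mem_pz.1 hp).1
        omega
      · have h4 : (p : ℤ) ∣ ((N - m : ℕ) : ℤ) := by
          rw [Nat.cast_sub (by omega)]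
          exact h3
        have h5 : p ∣ N - m := by exact_mod_cast h4
        have h6 := h2 p hpp h5
        have h7 := mem_pz' (by positivity) hp
        linarith
    have hPIr := hPI _ hz4 N hE
    have hSy : sing N ≤ 2 ^ (B * r) * Sy N ⌊(X : ℝ) ^ (1 / (r : ℝ))⌋₊ := by
      apply sing_le_Sy N _ (B * r) hN0 ((X : ℝ) ^ (1 / (r : ℝ)))
      · have : (X : ℝ) ^ (1 / (2 * r : ℝ)) ≤ (X : ℝ) ^ (1 / (r : ℝ)) := by
          apply Real.rpow_le_rpow_of_exponent_le hX1
          apply one_div_le_one_div_of_le hrpos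
          linarith
        linarith
      · exact (Nat.lt_floor_add_one _).le
      · have e1 : ((X : ℝ) ^ (1 / (r : ℝ))) ^ (B * r + 1) = (X : ℝ) ^ B * (X : ℝ) ^ (1 / (r : ℝ)) := by
          rw [pow_succ, ← Real.rpow_natCast ((X : ℝ) ^ (1 / (r : ℝ))), ← Real.rpow_mul hXpos.le]
          congr 1
          rw [← Real.rpow_natCast]
          congr 1
          push_cast
          field_simp
        rw [e1]
        have h1 : (1 : ℝ) < (X : ℝ) ^ (1 / (r : ℝ)) := by
          have : (X : ℝ) ^ (1 / (2 * r : ℝ)) ≤ (X : ℝ) ^ (1 / (r : ℝ)) := by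
            apply Real.rpow_le_rpow_of_exponent_le hX1
            apply one_div_le_one_div_of_le hrpos
            linarith
          linarith
        have h2 : (0 : ℝ) < (X : ℝ) ^ B := by positivity
        nlinarith
    have hPIlow : cS * 8 * sing N / Real.log X ≤ ∏ p ∈ pz ⌊(X : ℝ) ^ (1 / (r : ℝ))⌋₊,
        (1 - (rhoA (QA N) p : ℝ) / (p - 1 : ℝ)) := by
      refine le_trans ?_ hPIr
      calc cS * 8 * sing N / Real.log X = c0 / Real.log X * (sing N / 2 ^ (B * r)) := by
            rw [hcS]; field_simp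
        _ ≤ c0 / Real.log ⌊(X : ℝ) ^ (1 / (r : ℝ))⌋₊ * Sy N ⌊(X : ℝ) ^ (1 / (r : ℝ))⌋₊ := by
            apply mul_le_mul _ _ (by positivity) (by positivity)
            · gcongr
            · rw [div_le_iff₀ (by positivity)]
              linarith
    have hcnt : cS * X / L ≤ (co P X (2 * X) : ℝ) := by
      have h1 := hlow (QA N) (perA N) (by
        refine le_trans ?_ hPIlow
        rw [div_le_div_iff₀ (by positivity) hlX, one_mul]
        have h2 : 1 ≤ cS * Real.log X := by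
          have : 1 / cS ≤ Real.log X := by linarith
          rw [div_le_iff₀ hcS0] at this
          linarith
        have h3 : cS * 1 ≤ cS * (8 * sing N) := by
          apply mul_le_mul_of_nonneg_left _ hcS0.le
          linarith
        calc Real.log X = 1 * Real.log X := (one_mul _).symm
          _ ≤ (cS * Real.log X) * Real.log X := by gcongr
          _ = (cS * 1) * Real.log X ^ 2 := by ring
          _ ≤ (cS * (8 * sing N)) * Real.log X ^ 2 := by gcongr
          _ = _ := by ring)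
      have h2 : (((Finset.Ioc X (2 * X)).filter (fun n => n.Prime ∧
          ∀ p ∈ pz ⌊(X : ℝ) ^ (1 / (r : ℝ))⌋₊, ¬ QA N p n)).card : ℝ) ≤ (co P X (2 * X) : ℝ) := by
        have : ((Finset.Ioc X (2 * X)).filter (fun n => n.Prime ∧
          ∀ p ∈ pz ⌊(X : ℝ) ^ (1 / (r : ℝ))⌋₊, ¬ QA N p n)).card ≤ co P X (2 * X) := by
          unfold co
          apply card_le_card
          intro m hm
          rw [mem_filter, mem_Ioc] at hm
          rw [mem_filter, mem_Ioc, hP]
          obtain ⟨hm1, hm2, hm3⟩ := hm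
          have hrough : ∀ q : ℕ, q.Prime → q ∣ N - m → (X : ℝ) ^ (1 / (r : ℝ)) < q := by
            intro q hq hd
            apply not_mem_pz hq
            intro h
            apply hm3 q h
            unfold QA
            have h5 : (q : ℤ) ∣ ((N - m : ℕ) : ℤ) := by exact_mod_cast hd
            rwa [Nat.cast_sub (by omega)] at h5
          refine ⟨hm1, hm2, ?_, fun q hq hd => lt_of_le_of_lt hNX (hrough q hq hd)⟩
          apply length_le (N - m) R (by omega) ((X : ℝ) ^ (1 / (r : ℝ))) hrough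
          · have h1 : ((N - m : ℕ) : ℝ) ≤ N := by exact_mod_cast Nat.sub_le _ _
            have e1 : ((X : ℝ) ^ (1 / (r : ℝ))) ^ R = (X : ℝ) ^ B := by
              rw [← Real.rpow_natCast ((X : ℝ) ^ (1 / (r : ℝ))), ← Real.rpow_mul hXpos.le, hRr,
                ← Real.rpow_natCast]
              congr 1
              field_simp
            rw [pow_succ, e1]
            have h2 : (1 : ℝ) ≤ (X : ℝ) ^ (1 / (r : ℝ)) := Real.one_le_rpow hX1 (by positivity)
            have h3 : (0 : ℝ) < (X : ℝ) ^ B := by positivity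
            nlinarith
          · exact Real.one_le_rpow hX1 (by positivity)
        exact_mod_cast this
      refine le_trans ?_ (h1.trans h2)
      calc cS * X / L = cS * sing N * X / Real.log N ^ 2 := by rw [hL]; field_simp
        _ ≤ cS * sing N * X / Real.log X ^ 2 := by gcongr
        _ = cS * 8 * sing N / Real.log X * X / (8 * Real.log X) := by field_simp
        _ ≤ _ := by gcongr
    have hfin := hreg (Q N) (Co N) L ∅ (sdata N hE) (by linarith) hL8 hVy (by simp) hlarge P P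
      (fun n h => h) hPQ hcnt
    refine conclude P c₁ c₂ δ L lam κ η K X (fun n => badScales R N c₁ c₂ δ X n)
      (fun n => badScales R N 0 lam δ X n) ?_ ?_ hfin
    · intro n _ _
      exact bad_le R N c₁ c₂ δ X n P L hS0 hlNpos hL hP
    · intro n _ _
      exact bad_le R N 0 lam δ X n P L hS0 hlNpos hL hP
  exact key

end Pool.Agent.Results.MP_629a14_nt.AllButFewScales
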