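import Pool.Agent.W23.PL.All

/-!
Chen's theorem in arbitrary dense sets of primes: almost prime values of `N - p`, `p ∈ A`, for all
`|N| ≤ 2X` with `O(log X / log log X)` exceptions; sharpness of this number and of the size of the
small factor.
-/

set_option autoImplicit false

namespace Pool.Agent.Results.MP_629a14_nt.DenseSetsSharpExceptions

/-- the `p ∈ A`, `p ≠ N`, such that `|N - p| = m s` with `m ≤ (log X)^t` and `s` a prime or a
product of two primes, all prime factors of `s` being larger than `X^(1/7)` -/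
def good (A : Finset ℕ) (N : ℤ) (X : ℕ) (t : ℝ) : Set ℕ :=
  {p : ℕ | p ∈ A ∧ (p : ℤ) ≠ N ∧ ∃ m s : ℕ, (N - (p : ℤ)).natAbs = m * s ∧
    (m : ℝ) ≤ Real.log X ^ t ∧ (s.Prime ∨ ∃ q₁ q₂ : ℕ, q₁.Prime ∧ q₂.Prime ∧ s = q₁ * q₂) ∧
    ∀ q : ℕ, q.Prime → q ∣ s → (X : ℝ) ^ (1 / 7 : ℝ) < q}

theorem len_of {s : ℕ} (h : s.Prime ∨ ∃ q₁ q₂ : ℕ, q₁.Prime ∧ q₂.Prime ∧ s = q₁ * q₂) :
    1 < s ∧ s.primeFactorsList.length ≤ 2 := by
  rcases h with h | ⟨q₁, q₂, h1, h2, rfl⟩
  · exact ⟨h.one_lt, by simp [Nat.primeFactorsList_prime h]⟩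
  · refine ⟨?_, ?_⟩
    · have := h1.one_lt
      have := h2.one_lt
      nlinarith
    · have h3 := Nat.perm_primeFactorsList_mul h1.ne_zero h2.ne_zero
      rw [h3.length_eq, List.length_append, Nat.primeFactorsList_prime h1,
        Nat.primeFactorsList_prime h2]
      simp

theorem of_len {s : ℕ} (h1 : 1 < s) (h2 : s.primeFactorsList.length ≤ 2) :
    s.Prime ∨ ∃ q₁ q₂ : ℕ, q₁.Prime ∧ q₂.Prime ∧ s = q₁ * q₂ := by
  have hprod := Nat.prod_primeFactorsList (show s ≠ 0 by omega)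
  have hpr : ∀ q ∈ s.primeFactorsList, q.Prime := fun q hq => Nat.prime_of_mem_primeFactorsList hq
  match hL : s.primeFactorsList, h2 with
  | [], _ =>
    rw [hL] at hprod
    simp at hprod
    omega
  | [q], _ =>
    left
    rw [hL] at hprod hpr
    have : q = s := by simpa using hprod
    rw [← this]
    exact hpr q (by simp)
  | [q₁, q₂], _ =>
    right
    rw [hL] at hprod hpr
    refine ⟨q₁, q₂, hpr q₁ (by simp), hpr q₂ (by simp), ?_⟩
    rw [← hprod]
    simp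
  | _ :: _ :: _ :: _, h2 =>
    simp at h2

/-- **Main result**, in three parts.

(1) For every `δ > 0` there are `c > 0`, `C` and `t` such that, for every `X ≥ 3` and every set `A`
of primes up to `X` with at least `δ X / log X` elements, for all but at most
`C log X / log log X` of the integers `N` with `|N| ≤ 2X` at least `c (log log X / log X) |A|` of
the `p ∈ A` are such that `|N - p| = m s` with `1 ≤ m ≤ (log X)^t` and `s` a product of one or two
primes larger than `X^(1/7)`.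

(2) The number of exceptions is sharp: for all `t` and `η > 0` there is `c' > 0` such that, for all
large `X` and every set `H` of at most `c' log X / log log X` nonzero integers `N` with
`|N| ≤ 2X`, one can remove at most `η X / log X` primes from the primes up to `X` such that for
the remaining set `A` no `p ∈ A` has this property for any `N ∈ H`.

(3) The factor `m` cannot be smaller than about `log X`: for `0 < κ < 1` and `η > 0`, for all large
`X` there is a set `A` of primes up to `X` with at least `(1 - κ - η) π(X)` elements such that for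
at least `X^(3/10)` integers `N` with `|N| ≤ 2X` no `p ∈ A` has the property with
`m ≤ (log X)^κ`. -/
theorem result :
    (∀ δ : ℝ, 0 < δ → ∃ c C t : ℝ, 0 < c ∧ ∀ X : ℕ, 3 ≤ X → ∀ A : Finset ℕ,
      (∀ p ∈ A, p.Prime ∧ p ≤ X) → δ * X / Real.log X ≤ A.card →
      ({N : ℤ | |N| ≤ 2 * X ∧ ((good A N X t).ncard : ℝ) <
          c * (Real.log (Real.log X) / Real.log X) * A.card}.ncard : ℝ) ≤
        C * (Real.log X / Real.log (Real.log X))) ∧
    (∀ t η : ℝ, 0 < η → ∃ (c' : ℝ) (X₀ : ℕ), 0 < c' ∧ ∀ X : ℕ, X₀ ≤ X → ∀ H : Finset ℤ,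
      (∀ N ∈ H, N ≠ 0 ∧ |N| ≤ 2 * X) →
      (H.card : ℝ) ≤ c' * (Real.log X / Real.log (Real.log X)) →
      ∃ A : Finset ℕ, (∀ p ∈ A, p.Prime ∧ p ≤ X) ∧
        (((Finset.Icc 1 X).filter Nat.Prime).card : ℝ) - A.card ≤ η * (X / Real.log X) ∧
        ∀ N ∈ H, good A N X t = ∅) ∧
    (∀ κ η : ℝ, 0 < κ → κ < 1 → 0 < η → ∃ X₀ : ℕ, ∀ X : ℕ, X₀ ≤ X → ∃ A : Finset ℕ,
      (∀ p ∈ A, p.Prime ∧ p ≤ X) ∧
      (1 - κ - η) * (((Finset.Icc 1 X).filter Nat.Prime).card : ℝ) ≤ A.card ∧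
      (X : ℝ) ^ (3 / 10 : ℝ) ≤ ({N : ℤ | |N| ≤ 2 * X ∧ good A N X κ = ∅}.ncard : ℝ)) := by
  classical
  refine ⟨?_, ?_, ?_⟩
  · intro δ hδ
    obtain ⟨c, C, K, hc, h⟩ := Pool.Agent.W23.PL.dense_sharp δ hδ
    refine ⟨c, C, (K : ℝ), hc, ?_⟩
    intro X hX A hA hAc
    refine le_trans ?_ (h X hX A hA hAc)
    refine Nat.cast_le.2 (le_trans (Set.ncard_le_ncard ?_ (Finset.finite_toSet _))
      (le_of_eq (Set.ncard_coe_finset _)))
    rintro N ⟨h1, h2⟩
    rw [Finset.mem_coe, Finset.mem_filter, Finset.mem_Icc]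
    refine ⟨abs_le.1 h1, lt_of_le_of_lt ?_ h2⟩
    rw [← Set.ncard_coe_finset]
    have hfin : (good A N X (K : ℝ)).Finite := A.finite_toSet.subset fun p hp => hp.1
    refine Nat.cast_le.2 (Set.ncard_le_ncard ?_ hfin)
    intro p hp
    rw [Finset.mem_coe, Finset.mem_filter] at hp
    obtain ⟨hpA, -, hpN, m, s, e1, e2, e3, e4, e5⟩ := hp
    refine ⟨hpA, hpN, m, s, e1, ?_, of_len e3 e4, fun q hq hqs =>
      e5 q (Nat.mem_primeFactors.2 ⟨hq, hqs, by omega⟩)⟩
    rw [Real.rpow_natCast]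
    exact e2
  · intro t η hη
    obtain ⟨c', X₀, hc', h⟩ := Pool.Agent.W23.PL.sharp1_thm ⌈t⌉₊ η hη
    refine ⟨c', max X₀ 3, hc', ?_⟩
    intro X hX H hH hHc
    obtain ⟨A, hA1, hA2, hA3⟩ := h X ((le_max_left _ _).trans hX) H hH hHc
    refine ⟨A, hA1, hA2, fun N hN => ?_⟩
    rw [Set.eq_empty_iff_forall_notMem]
    rintro p ⟨hpA, hpN, m, s, e1, e2, e3, e4⟩
    apply hA3 N hN p
    have hX3 : (3 : ℝ) ≤ X := by exact_mod_cast (le_max_right _ _).trans hX
    have hlog : 1 ≤ Real.log X := by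
      rw [Real.le_log_iff_exp_le (by linarith)]
      exact Real.exp_one_lt_three.le.trans hX3
    refine ⟨hpA, hpN, m, s, e1, e2.trans ?_, (len_of e3).1, (len_of e3).2, fun q hq =>
      e4 q (Nat.prime_of_mem_primeFactors hq) (Nat.dvd_of_mem_primeFactors hq)⟩
    rw [← Real.rpow_natCast]
    exact Real.rpow_le_rpow_of_exponent_le hlog (Nat.le_ceil t)
  · intro κ η hκ hκ1 hη
    obtain ⟨X₀, h⟩ := Pool.Agent.W23.PL.sharp2_thm κ η hκ hκ1 hη
    refine ⟨X₀, fun X hX => ?_⟩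
    obtain ⟨A, hA1, hA2, H, hH1, hH2⟩ := h X hX
    refine ⟨A, hA1, hA2, hH1.trans ?_⟩
    have hfin : {N : ℤ | |N| ≤ 2 * X ∧ good A N X κ = ∅}.Finite :=
      (Set.finite_Icc (-(2 * X : ℤ)) (2 * X)).subset fun N hN => abs_le.1 hN.1
    have hinj : Function.Injective (fun n : ℕ => (n : ℤ)) := Nat.cast_injective
    have h1 : (H.image (fun n : ℕ => (n : ℤ))).card = H.card := Finset.card_image_of_injective _ hinj
    rw [← h1, ← Set.ncard_coe_finset]
    refine Nat.cast_le.2 (Set.ncard_le_ncard ?_ hfin)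
    intro N hN
    rw [Finset.mem_coe, Finset.mem_image] at hN
    obtain ⟨n, hn, rfl⟩ := hN
    obtain ⟨hn1, hn2⟩ := hH2 n hn
    refine ⟨?_, ?_⟩
    · rw [abs_of_nonneg (by positivity)]
      exact_mod_cast hn1
    · rw [Set.eq_empty_iff_forall_notMem]
      rintro p ⟨hpA, hpN, m, s, e1, e2, e3, e4⟩
      exact hn2 p hpA ⟨hpN, m, s, e1, e2, by have := (len_of e3).1; omega, fun q hq =>
        e4 q (Nat.prime_of_mem_primeFactors hq) (Nat.dvd_of_mem_primeFactors hq)⟩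

end Pool.Agent.Results.MP_629a14_nt.DenseSetsSharpExceptions
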