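import Mathlib
import Pool.Agent.W99.QE3

set_option autoImplicit false

/-! # The order of magnitude of Goldbach representation counts in windows around real quadratic
polynomials (helper99)

`g n` is the number of ordered pairs of primes with sum `n`, `C₂` the twin prime constant
(`1/2 ≤ C₂ < 1`) and `HL n` the Hardy-Littlewood main term. -/

namespace Pool.Agent.Results.MP_629a14_nt.QuadraticWindows

open Finset Pool.Agent.H560R3.GB Pool.Agent.W93.GB Pool.Agent.W99.QE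

/-- the order of magnitude holds at `n`, with constants `(1 - ε) C₂` and `1 + ε`, the asymptotic
formula holds up to `ε`, and `n` is a sum of two distinct primes -/
def RightOrder (ε : ℝ) (n : ℕ) : Prop :=
  (1 - ε) * C₂ * ((n : ℝ) ^ 2 / (Nat.totient n * Real.log n ^ 2)) ≤ g n ∧
  (g n : ℝ) ≤ (1 + ε) * ((n : ℝ) ^ 2 / (Nat.totient n * Real.log n ^ 2)) ∧
  |(g n : ℝ) - HL n| ≤ ε * HL n ∧
  ∃ p q : ℕ, p.Prime ∧ q.Prime ∧ p ≠ q ∧ p + q = n

lemma rightOrder_of_good (ε : ℝ) (hε : 0 < ε) (n : ℕ) (hn : Even n) (h : Good ε n) :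
    RightOrder ε n := by
  obtain ⟨h1, p, q, hp, hq, hpq, hs⟩ := h
  have h0 : n ≠ 0 := by
    have := hp.pos
    omega
  obtain ⟨b1, b2⟩ := HL_bounds n hn h0
  unfold OM at b1 b2
  have hC := C2_pos
  have hO : 0 ≤ (n : ℝ) ^ 2 / (Nat.totient n * Real.log n ^ 2) := by positivity
  have a := abs_le.1 h1
  refine ⟨?_, ?_, h1, p, q, hp, hq, hpq, hs⟩
  · rcases le_or_gt ε 1 with he | he
    · have c1 : (1 - ε) * (C₂ * ((n : ℝ) ^ 2 / (Nat.totient n * Real.log n ^ 2))) ≤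
          (1 - ε) * HL n := mul_le_mul_of_nonneg_left b1 (by linarith)
      linarith [a.1]
    · have c1 : (1 - ε) * C₂ * ((n : ℝ) ^ 2 / (Nat.totient n * Real.log n ^ 2)) ≤ 0 := by
        apply mul_nonpos_of_nonpos_of_nonneg _ hO
        exact mul_nonpos_of_nonpos_of_nonneg (by linarith) hC.le
      exact c1.trans (Nat.cast_nonneg _)
  · have c1 : (1 + ε) * HL n ≤
        (1 + ε) * ((n : ℝ) ^ 2 / (Nat.totient n * Real.log n ^ 2)) :=
      mul_le_mul_of_nonneg_left b2 (by linarith)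
    linarith [a.2]

/-- Let `A, U` be natural numbers and `ε > 0`. For all large `M` and all real `α, β, γ` with
`|α| ≥ log^{-A} M` and `0 ≤ α m² + β m + γ ≤ M² log^A M` for `1 ≤ m ≤ M`: for all but at most
`M / log^U M` of the `m ≤ M`, every even `n` with `|n - (α m² + β m + γ)| ≤ log^A M` satisfies
`(1 - ε) C₂ n² / (φ(n) log² n) ≤ r₂(n) ≤ (1 + ε) n² / (φ(n) log² n)`, and moreover
`|r₂(n) - HL(n)| ≤ ε HL(n)`, and `n` is a sum of two distinct primes. -/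
theorem result (A U : ℕ) (ε : ℝ) (hε : 0 < ε) : ∃ M₀ : ℕ, ∀ M : ℕ, M₀ ≤ M → ∀ α β γ : ℝ,
    1 ≤ |α| * Real.log M ^ A →
    (∀ m ∈ Icc 1 M, 0 ≤ α * (m : ℝ) ^ 2 + β * m + γ ∧
      α * (m : ℝ) ^ 2 + β * m + γ ≤ (M : ℝ) ^ 2 * Real.log M ^ A) →
    ∃ S : Finset ℕ, S ⊆ Icc 1 M ∧ (S.card : ℝ) ≤ M / Real.log M ^ U ∧
      ∀ m ∈ Icc 1 M, m ∉ S → ∀ n : ℕ, Even n →
        |(n : ℝ) - (α * (m : ℝ) ^ 2 + β * m + γ)| ≤ Real.log M ^ A → RightOrder ε n := by
  classical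
  obtain ⟨M₀, h⟩ := main A U ε hε
  refine ⟨M₀, fun M hM α β γ hα hF => ?_⟩
  set S : Finset ℕ := (Icc 1 M).filter (fun m : ℕ => ∃ n : ℕ, Even n ∧
    |(n : ℝ) - (α * (m : ℝ) ^ 2 + β * m + γ)| ≤ Real.log M ^ A ∧ ¬ Good ε n) with hS
  refine ⟨S, filter_subset _ _, ?_, ?_⟩
  · exact h M hM α β γ hα hF S (filter_subset _ _) (fun m hm => (mem_filter.1 hm).2)
  · intro m hm hmS n hn hnear
    apply rightOrder_of_good ε hε n hn
    by_contra hcon
    exact hmS (mem_filter.2 ⟨hm, n, hn, hnear, hcon⟩)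

end Pool.Agent.Results.MP_629a14_nt.QuadraticWindows
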