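import Pool.Agent.W23.SG.All

/-!
Almost prime values of `N - p` for `p` in an arbitrary, possibly sparse, set of primes.
-/

set_option autoImplicit false

namespace Pool.Agent.Results.MP_629a14_nt.SparseSetsAlmostPrime

/-- the `p ∈ A`, `p ≠ N`, such that `|N - p| = m s`, all prime factors of `m` are smaller than
`X^ε`, and `s` is a product of at most two primes, each larger than `X^(1/7)` -/
def good (A : Finset ℕ) (N : ℤ) (X : ℕ) (ε : ℝ) : Set ℕ :=
  {p : ℕ | p ∈ A ∧ (p : ℤ) ≠ N ∧ ∃ m s : ℕ, (N - (p : ℤ)).natAbs = m * s ∧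
    (∀ l : ℕ, l.Prime → l ∣ m → (l : ℝ) < (X : ℝ) ^ ε) ∧ s.primeFactorsList.length ≤ 2 ∧
    ∀ q : ℕ, q.Prime → q ∣ s → (X : ℝ) ^ (1 / 7 : ℝ) < q}

/-- For every `ε > 0` there are `c, η > 0` and `C` such that, for every `X ≥ 2` and every set `A` of
primes up to `X` with at least `X^(1-η)` elements, for all but at most `C X / (|A| log X)` of the
integers `N` with `|N| ≤ 2X` at least `c |A|` of the `p ∈ A` are such that `0 ≠ |N - p| = m s`,
where all prime factors of `m` are smaller than `X^ε` and `s` is a product of at most two primes,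
each larger than `X^(1/7)`. -/
theorem result (ε : ℝ) (hε : 0 < ε) :
    ∃ c C η : ℝ, 0 < c ∧ 0 < η ∧ ∀ X : ℕ, 2 ≤ X → ∀ A : Finset ℕ, (∀ p ∈ A, p.Prime ∧ p ≤ X) →
      (X : ℝ) ^ (1 - η) ≤ A.card →
      ({N : ℤ | |N| ≤ 2 * X ∧ ((good A N X ε).ncard : ℝ) < c * A.card}.ncard : ℝ) ≤
        C * (X / (A.card * Real.log X)) := by
  classical
  obtain ⟨c, C, η, hc, hη, h⟩ := Pool.Agent.W23.SG.sparse_sets ε hε
  refine ⟨c, C, η, hc, hη, ?_⟩
  intro X hX A hA hAc
  refine le_trans ?_ (h X hX A hA hAc)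
  refine Nat.cast_le.2 (le_trans (Set.ncard_le_ncard ?_ (Finset.finite_toSet _))
    (le_of_eq (Set.ncard_coe_finset _)))
  rintro N ⟨h1, h2⟩
  rw [Finset.mem_coe, Finset.mem_filter, Finset.mem_Icc]
  refine ⟨abs_le.1 h1, lt_of_le_of_lt ?_ h2⟩
  rw [← Set.ncard_coe_finset]
  have hfin : (good A N X ε).Finite := A.finite_toSet.subset fun p hp => hp.1
  refine Nat.cast_le.2 (Set.ncard_le_ncard ?_ hfin)
  intro p hp
  rw [Finset.mem_coe, Finset.mem_filter] at hp
  obtain ⟨hpA, hpN, m, s, e1, e2, e3, e4⟩ := hp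
  have hs : s ≠ 0 := by
    rintro rfl
    rw [mul_zero, Int.natAbs_eq_zero] at e1
    omega
  exact ⟨hpA, hpN, m, s, e1, e2, e3, fun q hq hqs => e4 q (Nat.mem_primeFactors.2 ⟨hq, hqs, hs⟩)⟩

end Pool.Agent.Results.MP_629a14_nt.SparseSetsAlmostPrime
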